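import Pool.Agent.Helper29.CR.C5

/-!
# CR, leaf K4: the derivative of `VV` is bounded near compact sets of the line without zeros

Near a point `i y` of the line with `G (i y) ≠ 0` and `y ≠ 0` the branch `L` continues to a holomorphic function: there is a
holomorphic logarithm `ℓ` of `G` on a ball, and `L - ℓ` is constant on the intersection of the ball with the right half
plane. Near `0` this is the leaf C5. Then compactness.
-/

set_option autoImplicit false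

namespace Pool.Agent.Helper16.CR

open Complex Filter Topology MeasureTheory Set Metric
open Pool.Agent.Helper13.Bsd Pool.Agent.Helper7.GW Pool.Agent.Helper58.BSD Pool.Agent.Helper29.MS

variable {v : ℝ → ℝ} {G : ℂ → ℂ} {A a η B c : ℝ} {k : ℕ}

private theorem k4_local (hF : Frame v G A a η B c k) {L : ℂ → ℂ} (hL : Branch v G a L) (y0 : ℝ)
    (h0 : G ((y0 : ℂ) * I) ≠ 0) :
    ∃ δ C : ℝ, 0 < δ ∧ 0 ≤ C ∧ ∀ w : ℂ, 0 < w.re → ‖w - (y0 : ℂ) * I‖ < δ →
      ‖deriv (VV L (kap G)) w‖ ≤ C := by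
  rcases eq_or_ne y0 0 with rfl | hy0
  · obtain ⟨δ, K, hδ, hK, h⟩ := near_zero_deriv hF hL
    refine ⟨δ, K, hδ, hK, fun w hw hwn => h w hw ?_⟩
    simpa using hwn
  have hη := hF.setup.hη
  have hopen : ∀ x : ℝ, IsOpen {w : ℂ | x < w.re} := fun x => isOpen_lt continuous_const continuous_re
  have hconv : ∀ x : ℝ, Convex ℝ {w : ℂ | x < w.re} := fun x => convex_halfSpace_re_gt x
  set w0 : ℂ := (y0 : ℂ) * I with hw0
  have hw0re : w0.re = 0 := by simp [hw0]
  have hw0n : ‖w0‖ = |y0| := by simp [hw0]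
  have hw0mem : w0 ∈ {s : ℂ | -η < s.re} := by
    show -η < w0.re
    rw [hw0re]
    linarith
  have hGd : DifferentiableAt ℂ G w0 := hF.setup.diff.differentiableAt ((hopen (-η)).mem_nhds hw0mem)
  have hGne : ∀ᶠ w in 𝓝 w0, G w ≠ 0 := hGd.continuousAt.eventually_ne h0
  obtain ⟨δ0, hδ0, hδ⟩ := Metric.eventually_nhds_iff_ball.mp hGne
  set δ1 : ℝ := min (min δ0 η) |y0| with hδ1
  have hδ1pos : 0 < δ1 := lt_min (lt_min hδ0 hη) (abs_pos.mpr hy0)
  set U : Set ℂ := ball w0 δ1 with hU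
  have hUo : IsOpen U := isOpen_ball
  have hw0U : w0 ∈ U := mem_ball_self hδ1pos
  have hU1 : ∀ w ∈ U, G w ≠ 0 := fun w hw => hδ w (ball_subset_ball
    ((min_le_left _ _).trans (min_le_left _ _)) hw)
  have hU2 : ∀ w ∈ U, w ≠ 0 := by
    rintro w hw rfl
    rw [hU, mem_ball, dist_comm, dist_zero_right, hw0n] at hw
    exact absurd (min_le_right (min δ0 η) |y0|) (not_le.mpr hw)
  have hGU : DifferentiableOn ℂ G U := by
    refine hF.setup.diff.mono fun w hw => ?_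
    rw [hU, mem_ball, dist_eq_norm] at hw
    have h1 := abs_lt.mp ((abs_re_le_norm (w - w0)).trans_lt
      (hw.trans_le ((min_le_left _ _).trans (min_le_right _ _))))
    rw [sub_re, hw0re, sub_zero] at h1
    exact h1.1
  obtain ⟨ℓ, hℓd, hℓe⟩ := exists_log hUo (convex_ball _ _) ⟨w0, hw0U⟩ hGU hU1
  set D : Set ℂ := U ∩ {w : ℂ | 0 < w.re} with hD
  have hDo : IsOpen D := hUo.inter (hopen 0)
  have hDp : IsPreconnected D := ((convex_ball _ _).inter (hconv 0)).isPreconnected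
  have hHd : DifferentiableOn ℂ (fun w => L w - ℓ w) D :=
    (hL.diff.mono inter_subset_right).sub (hℓd.mono inter_subset_left)
  have hHe : ∀ w ∈ D, cexp (L w - ℓ w) = 1 := by
    intro w hw
    rw [exp_sub, hL.exp w hw.2, hℓe w hw.1]
    exact div_self (hU1 w hw.1)
  set w1 : ℂ := w0 + ((δ1 / 2 : ℝ) : ℂ) with hw1
  have hw1D : w1 ∈ D := by
    refine ⟨?_, ?_⟩
    · rw [hU, mem_ball, dist_eq_norm, hw1, add_sub_cancel_left, norm_real, Real.norm_eq_abs,
        abs_of_pos (by positivity)]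
      linarith
    · show 0 < w1.re
      rw [hw1, add_re, hw0re, ofReal_re]
      positivity
  set c0 : ℂ := L w1 - ℓ w1 with hc0
  have hLℓ : ∀ w ∈ D, L w = ℓ w + c0 := by
    intro w hw
    have h1 := const_of_exp hDo hDp hHd hHe hw hw1D
    simp only [← hc0] at h1
    linear_combination h1
  set F : ℂ → ℂ := fun w => -(ℓ w + c0 + (kap G : ℂ)) / w with hFdef
  have hFd : DifferentiableOn ℂ F U := by
    refine DifferentiableOn.div ?_ differentiableOn_id hU2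
    exact ((hℓd.add_const _).add_const _).neg
  have hVV : ∀ w ∈ D, VV L (kap G) w = F w := by
    intro w hw
    unfold VV
    rw [hLℓ w hw]
  have hdc : ContinuousAt (deriv F) w0 :=
    ((hFd.deriv hUo).differentiableAt (hUo.mem_nhds hw0U)).continuousAt
  obtain ⟨δ2, hδ2, hδ2'⟩ := Metric.continuousAt_iff.mp hdc 1 one_pos
  refine ⟨min δ1 δ2, ‖deriv F w0‖ + 1, lt_min hδ1pos hδ2, by positivity, ?_⟩
  intro w hw hwn
  have hwD : w ∈ D := ⟨by rw [hU, mem_ball, dist_eq_norm]; exact hwn.trans_le (min_le_left _ _), hw⟩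
  have hev : VV L (kap G) =ᶠ[𝓝 w] F := by
    filter_upwards [hDo.mem_nhds hwD] with z hz
    exact hVV z hz
  have h1 := hδ2' (x := w) (by rw [dist_eq_norm]; exact hwn.trans_le (min_le_right _ _))
  rw [dist_eq_norm] at h1
  rw [hev.deriv_eq]
  have h3 := norm_le_norm_add_norm_sub' (deriv F w) (deriv F w0)
  linarith

/-- K4. compact sets without zeros -/
theorem middle (hF : Frame v G A a η B c k) {L : ℂ → ℂ} (hL : Branch v G a L) (S : Set ℝ) (hS : IsCompact S)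
    (h0 : ∀ y ∈ S, G ((y : ℂ) * I) ≠ 0) :
    ∃ σ0 C : ℝ, 0 < σ0 ∧ 0 ≤ C ∧ ∀ σ : ℝ, 0 < σ → σ ≤ σ0 → ∀ y ∈ S,
      ‖deriv (VV L (kap G)) ((σ : ℂ) + (y : ℂ) * I)‖ ≤ C := by
  refine hS.induction_on (p := fun T : Set ℝ => ∃ σ0 C : ℝ, 0 < σ0 ∧ 0 ≤ C ∧
    ∀ σ : ℝ, 0 < σ → σ ≤ σ0 → ∀ y ∈ T, ‖deriv (VV L (kap G)) ((σ : ℂ) + (y : ℂ) * I)‖ ≤ C)
    ⟨1, 0, one_pos, le_refl 0, fun σ _ _ y hy => absurd hy (notMem_empty y)⟩ ?_ ?_ ?_
  · rintro T T' hTT ⟨σ0, C, h1, h2, h3⟩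
    exact ⟨σ0, C, h1, h2, fun σ hσ hσ0 y hy => h3 σ hσ hσ0 y (hTT hy)⟩
  · rintro T T' ⟨σ0, C, h1, h2, h3⟩ ⟨σ0', C', h1', h2', h3'⟩
    refine ⟨min σ0 σ0', max C C', lt_min h1 h1', h2.trans (le_max_left _ _), ?_⟩
    rintro σ hσ hσ0 y (hy | hy)
    · exact (h3 σ hσ (hσ0.trans (min_le_left _ _)) y hy).trans (le_max_left _ _)
    · exact (h3' σ hσ (hσ0.trans (min_le_right _ _)) y hy).trans (le_max_right _ _)
  · intro x hx
    obtain ⟨δ, C, hδ, hC, h⟩ := k4_local hF hL x (h0 x hx)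
    refine ⟨ball x (δ / 2), mem_nhdsWithin_of_mem_nhds (ball_mem_nhds x (by positivity)), δ / 4, C,
      by positivity, hC, ?_⟩
    intro σ hσ hσ0 y hy
    refine h _ (by simpa using hσ) ?_
    rw [mem_ball, Real.dist_eq] at hy
    have e : (σ : ℂ) + (y : ℂ) * I - (x : ℂ) * I = (σ : ℂ) + ((y - x : ℝ) : ℂ) * I := by
      push_cast
      ring
    rw [e]
    calc ‖(σ : ℂ) + ((y - x : ℝ) : ℂ) * I‖ ≤ ‖(σ : ℂ)‖ + ‖((y - x : ℝ) : ℂ) * I‖ := norm_add_le _ _
      _ = |σ| + |y - x| := by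
          rw [norm_mul, norm_I, mul_one, norm_real, norm_real, Real.norm_eq_abs, Real.norm_eq_abs]
      _ < δ := by
          rw [abs_of_pos hσ]
          linarith

end Pool.Agent.Helper16.CR
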